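import Pool.Agent.H72.EQQ.Targets

/-!
# MP_7ecdd4_nt, row LPA of eqq_modules: the Lipschitz constant of `arg` on the region
-/

set_option autoImplicit false

open MeasureTheory Filter

namespace Pool.Agent.H88.EQQ

open Pool.Agent.H71.EQ Pool.Agent.H72.EQQ

theorem extR_castSucc {k : ℕ} (z : Fin k → ℝ) (i : Fin k) : extR z i.castSucc = z i := by
  unfold extR
  rw [Fin.snoc_castSucc]

theorem extR_last {k : ℕ} (z : Fin k → ℝ) : extR z (Fin.last k) = -∑ i, z i := by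
  unfold extR
  rw [Fin.snoc_last]

/-- difference of two products -/
theorem prod_sub {ι : Type} [DecidableEq ι] (s : Finset ι) (a b : ι → ℝ) (M D : ℝ) (hM : 0 ≤ M)
    (ha : ∀ i, |a i| ≤ M) (hb : ∀ i, |b i| ≤ M) (hD : ∀ i, |a i - b i| ≤ D) :
    M * |∏ i ∈ s, a i - ∏ i ∈ s, b i| ≤ s.card * M ^ s.card * D := by
  induction s using Finset.induction_on with
  | empty => simp
  | insert i s hi ih =>
    rw [Finset.prod_insert hi, Finset.prod_insert hi, Finset.card_insert_of_notMem hi]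
    have e : a i * ∏ j ∈ s, a j - b i * ∏ j ∈ s, b j =
        a i * (∏ j ∈ s, a j - ∏ j ∈ s, b j) + (a i - b i) * ∏ j ∈ s, b j := by ring
    have h1 : |∏ j ∈ s, b j| ≤ M ^ s.card := by
      rw [Finset.abs_prod, ← Finset.prod_const]
      exact Finset.prod_le_prod (fun _ _ => abs_nonneg _) fun j _ => hb j
    have hD0 : 0 ≤ D := (abs_nonneg _).trans (hD i)
    rw [e]
    have h2 : |a i * (∏ j ∈ s, a j - ∏ j ∈ s, b j) + (a i - b i) * ∏ j ∈ s, b j| ≤
        M * |∏ j ∈ s, a j - ∏ j ∈ s, b j| + D * M ^ s.card := by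
      refine (abs_add_le _ _).trans (add_le_add ?_ ?_)
      · rw [abs_mul]
        exact mul_le_mul_of_nonneg_right (ha i) (abs_nonneg _)
      · rw [abs_mul]
        exact mul_le_mul (hD i) h1 (abs_nonneg _) hD0
    calc M * |a i * (∏ j ∈ s, a j - ∏ j ∈ s, b j) + (a i - b i) * ∏ j ∈ s, b j|
        ≤ M * (M * |∏ j ∈ s, a j - ∏ j ∈ s, b j| + D * M ^ s.card) :=
          mul_le_mul_of_nonneg_left h2 hM
      _ ≤ M * (s.card * M ^ s.card * D + D * M ^ s.card) :=
          mul_le_mul_of_nonneg_left (add_le_add ih le_rfl) hM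
      _ = ((s.card + 1 : ℕ) : ℝ) * M ^ (s.card + 1) * D := by
          push_cast
          ring

/-- the power function on `[κ, 1]` -/
theorem rpow_sub {u v κ ν : ℝ} (hκ : 0 < κ) (hu : κ < u) (hu1 : u ≤ 1) (hv : κ < v)
    (hv1 : v ≤ 1) (hν0 : 0 ≤ ν) (hν : ν ≤ 1) :
    |u ^ (-ν) - v ^ (-ν)| ≤ (κ ^ 2)⁻¹ * |u - v| := by
  have key : ∀ u v : ℝ, κ < u → u ≤ v → v ≤ 1 →
      |u ^ (-ν) - v ^ (-ν)| ≤ (κ ^ 2)⁻¹ * |u - v| := by
    intro u v hu huv hv1
    have hu0 : 0 < u := hκ.trans hu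
    have hv0 : 0 < v := hu0.trans_le huv
    have h1 : v ^ (-ν) ≤ u ^ (-ν) := by
      rw [Real.rpow_neg hv0.le, Real.rpow_neg hu0.le]
      exact inv_anti₀ (Real.rpow_pos_of_pos hu0 _) (Real.rpow_le_rpow hu0.le huv hν0)
    rw [abs_of_nonneg (sub_nonneg.2 h1), abs_of_nonpos (sub_nonpos.2 huv), neg_sub]
    have h2 : v ^ (-ν) = u ^ (-ν) * (u / v) ^ ν := by
      rw [Real.div_rpow hu0.le hv0.le, Real.rpow_neg hv0.le, Real.rpow_neg hu0.le]
      have := (Real.rpow_pos_of_pos hu0 ν).ne'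
      field_simp
    have h3 : u / v ≤ (u / v) ^ ν := by
      have h4 : (u / v) ^ (1 : ℝ) ≤ (u / v) ^ ν :=
        Real.rpow_le_rpow_of_exponent_ge (by positivity) ((div_le_one hv0).2 huv) hν
      rwa [Real.rpow_one] at h4
    have h5 : u ^ (-ν) ≤ κ⁻¹ := by
      have h6 : u ^ (-ν) ≤ u ^ (-1 : ℝ) :=
        Real.rpow_le_rpow_of_exponent_ge hu0 (huv.trans hv1) (by linarith)
      rw [Real.rpow_neg_one] at h6
      exact h6.trans (inv_anti₀ hκ hu.le)
    have h7 : 0 ≤ u ^ (-ν) := (Real.rpow_pos_of_pos hu0 _).le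
    calc u ^ (-ν) - v ^ (-ν) = u ^ (-ν) * (1 - (u / v) ^ ν) := by rw [h2]; ring
      _ ≤ u ^ (-ν) * (1 - u / v) := mul_le_mul_of_nonneg_left (by linarith) h7
      _ ≤ κ⁻¹ * (1 - u / v) := by
          refine mul_le_mul_of_nonneg_right h5 ?_
          rw [sub_nonneg]
          exact (div_le_one hv0).2 huv
      _ = κ⁻¹ * (v⁻¹ * (v - u)) := by
          congr 1
          field_simp
      _ ≤ κ⁻¹ * (κ⁻¹ * (v - u)) := by
          refine mul_le_mul_of_nonneg_left (mul_le_mul_of_nonneg_right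
            (inv_anti₀ hκ (hu.le.trans huv)) (by linarith)) (by positivity)
      _ = (κ ^ 2)⁻¹ * (v - u) := by
          rw [sq, mul_inv]
          ring
  rcases le_total u v with h | h
  · exact key u v hu h hv1
  · rw [abs_sub_comm, abs_sub_comm u v]
    exact key v u hv h hu1

theorem pf_LPA : T_LPA := by
  intro k hk
  have hk0 : (0 : ℝ) < k := by
    have : 0 < k := by omega
    exact_mod_cast this
  have hk1 : (1 : ℝ) ≤ k := by
    have : 1 ≤ k := by omega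
    exact_mod_cast this
  refine ⟨k * (k + 2), by positivity, ?_⟩
  intro E κ lam s hE hκ hκ1 hlam hs hs1 y z hyz hy hz
  have hE1 : (1 : ℝ) ≤ E := by exact_mod_cast hE
  have hν0 : 0 ≤ nu k := by unfold nu; positivity
  have hν1 : nu k ≤ 1 := by
    unfold nu
    rw [div_le_one (by positivity)]
    linarith
  have he : (E : ℝ) ^ (-nu k) ≤ 1 := Real.rpow_le_one_of_one_le_of_nonpos hE1 (by linarith)
  have he0 : 0 ≤ (E : ℝ) ^ (-nu k) := by positivity
  have hlam0 : 0 ≤ lam := by linarith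
  have hbd : ∀ w : Fin k → ℝ, w ∈ Reg k E κ lam → ∀ i, |extR w i| ≤ lam := fun w hw i =>
    (hw.2.2 i).trans (mul_le_of_le_one_right hlam0 he)
  have hd : ∀ i, |extR y i - extR z i| ≤ k * s := by
    intro i
    refine Fin.lastCases ?_ (fun j => ?_) i
    · rw [extR_last, extR_last]
      have e : -∑ i, y i - -∑ i, z i = -∑ i, (y i - z i) := by
        rw [Finset.sum_sub_distrib]
        ring
      rw [e, abs_neg]
      refine (Finset.abs_sum_le_sum_abs _ _).trans ((Finset.sum_le_card_nsmul _ _ s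
        fun i _ => hyz i).trans (le_of_eq ?_))
      rw [Finset.card_univ, Fintype.card_fin, nsmul_eq_mul]
    · rw [extR_castSucc, extR_castSucc]
      exact (hyz j).trans (le_mul_of_one_le_left hs.le hk1)
  have hP : lam * |PR y - PR z| ≤ (k + 1) * lam ^ (k + 1) * (k * s) := by
    have h1 := prod_sub Finset.univ (extR y) (extR z) lam (k * s) hlam0 (hbd y hy) (hbd z hz) hd
    rw [Finset.card_univ, Fintype.card_fin] at h1
    push_cast at h1
    refine le_trans (mul_le_mul_of_nonneg_left ?_ hlam0) h1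
    exact abs_abs_sub_abs_le _ _
  have hr := rpow_sub hκ hy.1 hy.2.1 hz.1 hz.2.1 hν0 hν1
  have hz0 : 0 < PR z := hκ.trans hz.1
  have hzp : PR z ^ (-nu k) ≤ (κ ^ 2)⁻¹ := by
    have h6 : PR z ^ (-nu k) ≤ PR z ^ (-1 : ℝ) :=
      Real.rpow_le_rpow_of_exponent_ge hz0 hz.2.1 (by linarith)
    rw [Real.rpow_neg_one] at h6
    refine h6.trans (inv_anti₀ (by positivity) ?_)
    nlinarith [hz.1]
  have hz00 : 0 ≤ PR z ^ (-nu k) := by positivity
  have hEν : (E : ℝ) ^ nu k ≤ E := by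
    have h6 : (E : ℝ) ^ nu k ≤ (E : ℝ) ^ (1 : ℝ) := Real.rpow_le_rpow_of_exponent_le hE1 hν1
    rwa [Real.rpow_one] at h6
  have hEν0 : 0 ≤ (E : ℝ) ^ nu k := by positivity
  have hlp : 1 ≤ lam ^ (k + 1) := one_le_pow₀ hlam
  have hκ2 : 0 < (κ ^ 2)⁻¹ := by positivity
  rw [pi_norm_le_iff_of_nonneg (by positivity)]
  intro i
  have e : (arg E y - arg E z) i = (E : ℝ) ^ nu k * ((PR y ^ (-nu k) - PR z ^ (-nu k)) *
      extR y i + PR z ^ (-nu k) * (extR y i - extR z i)) := by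
    show (E : ℝ) ^ nu k * PR y ^ (-nu k) * extR y i - (E : ℝ) ^ nu k * PR z ^ (-nu k) * extR z i
      = _
    ring
  rw [e, Real.norm_eq_abs, abs_mul, abs_of_nonneg hEν0]
  have h1 : |(PR y ^ (-nu k) - PR z ^ (-nu k)) * extR y i + PR z ^ (-nu k) *
      (extR y i - extR z i)| ≤ (κ ^ 2)⁻¹ * (lam * |PR y - PR z|) + (κ ^ 2)⁻¹ * (k * s) := by
    refine (abs_add_le _ _).trans (add_le_add ?_ ?_)
    · rw [abs_mul]
      calc |PR y ^ (-nu k) - PR z ^ (-nu k)| * |extR y i|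
          ≤ ((κ ^ 2)⁻¹ * |PR y - PR z|) * lam :=
            mul_le_mul hr (hbd y hy i) (abs_nonneg _) (by positivity)
        _ = _ := by ring
    · rw [abs_mul, abs_of_nonneg hz00]
      exact mul_le_mul hzp (hd i) (abs_nonneg _) hκ2.le
  have h2 : (κ ^ 2)⁻¹ * (lam * |PR y - PR z|) + (κ ^ 2)⁻¹ * (k * s) ≤
      (κ ^ 2)⁻¹ * (k * (k + 2) * lam ^ (k + 1) * s) := by
    rw [← mul_add]
    refine mul_le_mul_of_nonneg_left ?_ hκ2.le
    have h3 : (k : ℝ) * s ≤ lam ^ (k + 1) * (k * s) :=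
      le_mul_of_one_le_left (by positivity) hlp
    calc lam * |PR y - PR z| + k * s
        ≤ (k + 1) * lam ^ (k + 1) * (k * s) + lam ^ (k + 1) * (k * s) := add_le_add hP h3
      _ = k * (k + 2) * lam ^ (k + 1) * s := by ring
  calc (E : ℝ) ^ nu k * |(PR y ^ (-nu k) - PR z ^ (-nu k)) * extR y i + PR z ^ (-nu k) *
      (extR y i - extR z i)|
      ≤ E * ((κ ^ 2)⁻¹ * (k * (k + 2) * lam ^ (k + 1) * s)) :=
        mul_le_mul hEν (h1.trans h2) (abs_nonneg _) (by positivity)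
    _ = _ := by ring

end Pool.Agent.H88.EQQ
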