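import Pool.Agent.H72.EQQ.Targets2

/-!
# MP_7ecdd4_nt, row QSL of eqq_modules: sublevel sets of quadratic polynomials
-/

set_option autoImplicit false

open MeasureTheory Filter

namespace Pool.Agent.H88.EQQ

open Pool.Agent.H71.EQ Pool.Agent.H72.EQQ

theorem pf_QSL : T_QSL := by
  intro q b c δ hq hδ
  have hq' : 0 < |q| := abs_pos.2 hq
  obtain ⟨e, he⟩ : ∃ e, e = δ / |q| := ⟨_, rfl⟩
  obtain ⟨r, hr⟩ : ∃ r, r = -b / (2 * q) := ⟨_, rfl⟩
  obtain ⟨A, hA⟩ : ∃ A, A = (b ^ 2 - 4 * q * c) / (4 * q ^ 2) := ⟨_, rfl⟩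
  rw [← he]
  have he0 : 0 < e := by rw [he]; positivity
  have e1 : ∀ x, q * x ^ 2 + b * x + c = q * ((x - r) ^ 2 - A) := by
    intro x
    rw [hr, hA]
    field_simp
    ring
  have e2 : ∀ x, |q * x ^ 2 + b * x + c| ≤ δ → |(x - r) ^ 2 - A| ≤ e := by
    intro x hx
    rw [e1, abs_mul] at hx
    rw [he, le_div_iff₀ hq', mul_comm]
    exact hx
  obtain ⟨hi, hhi⟩ : ∃ hi, hi = Real.sqrt (A + e) := ⟨_, rfl⟩
  obtain ⟨lo, hlo⟩ : ∃ lo, lo = Real.sqrt (A - e) := ⟨_, rfl⟩
  have hlo0 : 0 ≤ lo := by rw [hlo]; exact Real.sqrt_nonneg _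
  have hhi0 : 0 ≤ hi := by rw [hhi]; exact Real.sqrt_nonneg _
  have hle : lo ≤ hi := by
    rw [hlo, hhi]
    exact Real.sqrt_le_sqrt (by linarith)
  have hdiff : hi - lo ≤ 2 * Real.sqrt e := by
    have h0 : hi - lo ≤ Real.sqrt (2 * e) := by
      apply Real.le_sqrt_of_sq_le
      rcases le_or_gt 0 (A + e) with h | h
      · have h1 : hi ^ 2 = A + e := by rw [hhi]; exact Real.sq_sqrt h
        have h2 : A - e ≤ lo ^ 2 := by
          rcases le_or_gt 0 (A - e) with h' | h'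
          · rw [hlo, Real.sq_sqrt h']
          · exact h'.le.trans (sq_nonneg _)
        nlinarith
      · have h1 : hi = 0 := by rw [hhi]; exact Real.sqrt_eq_zero_of_nonpos h.le
        have h2 : lo = 0 := by rw [hlo]; exact Real.sqrt_eq_zero_of_nonpos (by linarith)
        rw [h1, h2]
        nlinarith
    have h3 : Real.sqrt (2 * e) ≤ 2 * Real.sqrt e := by
      rw [Real.sqrt_le_left (by positivity), mul_pow, Real.sq_sqrt he0.le]
      linarith
    exact h0.trans h3
  have hsub : {x : ℝ | |q * x ^ 2 + b * x + c| ≤ δ} ⊆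
      Set.Icc (r + lo) (r + hi) ∪ Set.Icc (r - hi) (r - lo) := by
    intro x hx
    have h1 := abs_le.1 (e2 x hx)
    have h2 : |x - r| ≤ hi := by
      rw [hhi]
      exact Real.abs_le_sqrt (by linarith [h1.2])
    have h3 : lo ≤ |x - r| := by
      rw [hlo, ← Real.sqrt_sq_eq_abs]
      exact Real.sqrt_le_sqrt (by linarith [h1.1])
    rcases le_total 0 (x - r) with h | h
    · rw [abs_of_nonneg h] at h2 h3
      left
      constructor <;> linarith
    · rw [abs_of_nonpos h] at h2 h3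
      right
      constructor <;> linarith
  calc volume {x : ℝ | |q * x ^ 2 + b * x + c| ≤ δ}
      ≤ volume (Set.Icc (r + lo) (r + hi) ∪ Set.Icc (r - hi) (r - lo)) := measure_mono hsub
    _ ≤ volume (Set.Icc (r + lo) (r + hi)) + volume (Set.Icc (r - hi) (r - lo)) :=
        measure_union_le _ _
    _ = ENNReal.ofReal (2 * (hi - lo)) := by
        rw [Real.volume_Icc, Real.volume_Icc, ← ENNReal.ofReal_add (by linarith) (by linarith)]
        exact congrArg ENNReal.ofReal (by ring)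
    _ ≤ ENNReal.ofReal (4 * Real.sqrt e) := ENNReal.ofReal_le_ofReal (by linarith)

end Pool.Agent.H88.EQQ
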